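import Pool.Agent.H26.Flame

set_option autoImplicit false

open H26.Flame

theorem Pool.Agent.Results.MP_6e5fe0_co.NoFlame.result :
    ∃ D : RD, D.Acyclic ∧ D.NoBackInf ∧
      ∃ I : Set D.E, D.InG Set.univ I ∧ ∀ F : Set D.E, D.IsFlame F → ¬ I ⊆ F :=
  ⟨D, acyclic, noback, I, I_inG, no_flame⟩
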